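import Pool.Agent.H76.MU.Fam

set_option autoImplicit false

/-!
Products along almost all tuples of shifts, for families of at most a power of the logarithm of functions.
-/

namespace Pool.Agent.H76.MU

open Finset Pool.Agent.E8helper66.GB
open Pool.Agent.H807R2.Dav (ee norm_ee ee_add)
open Pool.Agent.E8helper77.GB (ev_log)

theorem tupSR (k A K : ℕ) : ∃ A' K' X₀ : ℕ, ∀ X : ℕ, X₀ ≤ X → ∀ Q : ℕ, 1 ≤ Q → (Q : ℝ) ≤ Real.log X ^ K →
    ∀ r : ℕ, (r : ℝ) ≤ Real.log X ^ K → ∀ (w : ℕ → ℂ) (G : Fin r → ℕ → ℂ) (I : Finset (Fin r)),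
    (∀ n ∈ Icc 1 X, ‖w n‖ ≤ Real.log X ^ K) → (∀ j, ∀ x ∈ Icc 1 ((Q + 1) * X), ‖G j x‖ ≤ Real.log X ^ K) →
    (∀ j ∈ I, FullAt ((Q + 1) * X) (G j) A' K') →
    ∃ B ⊆ Bx k X, (B.card : ℝ) ≤ (X : ℝ) ^ k / Real.log X ^ A ∧
      ∀ b ∈ Bx k X, b ∉ B → ∀ a ∈ Bx k Q, ∀ σ : Fin k → Fin r, (∃ i, σ i ∈ I) → ∀ α : ℝ,
        ‖Sm X w G a σ b α‖ ≤ (X : ℝ) / Real.log X ^ A := by
  classical
  set A' : ℕ := K * k + K * k + 2 * K + 2 * A + 1 with hA'
  obtain ⟨N₁, h1⟩ := ev_log 1 (4 * (k : ℝ) + 2)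
  refine ⟨A', K * k, N₁, fun X hX Q hQ1 hQ r hr w G I hw hG hI => ?_⟩
  obtain ⟨_, hl⟩ := h1 X hX
  set l : ℝ := Real.log X with hldef
  have hrk : (0 : ℝ) ≤ 4 * (k : ℝ) := by positivity
  have hl1 : 1 ≤ l := by linarith
  have hl0 : 0 < l := by linarith
  have hX1 : 1 ≤ X := by
    rcases Nat.eq_zero_or_pos X with h | h
    · exfalso
      rw [hldef, h] at hl
      simp only [CharP.cast_eq_zero, Real.log_zero] at hl
      linarith
    · exact h
  have hXR : (1 : ℝ) ≤ X := by exact_mod_cast hX1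
  set N := (Q + 1) * X with hN
  have hXN : (X : ℝ) ≤ N := by
    rw [hN]; push_cast
    have : (0 : ℝ) ≤ Q * X := by positivity
    nlinarith
  have hNup : (N : ℝ) ≤ 2 * l ^ K * X := by
    rw [hN]; push_cast
    have hQr : (1 : ℝ) ≤ Q := by exact_mod_cast hQ1
    have : (Q : ℝ) + 1 ≤ 2 * l ^ K := by linarith
    gcongr
  have hlN : l ≤ Real.log N := Real.log_le_log (by linarith) hXN
  set V : ℝ := (N : ℝ) ^ 2 / l ^ A' with hV
  set T : ℝ := (X : ℝ) / l ^ A with hT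
  have hTpos : 0 < T := by positivity
  obtain ⟨B, hB1, hB2, hB3⟩ := exc_tup N X Q hX1 le_rfl w G I (l ^ K) V T (one_le_pow₀ hl1) hTpos (by positivity) hw hG
    (by
      intro j hj E κ θ hE hκ
      refine (hI j hj E κ θ (fun y hy => (hE y hy).trans ?_) hκ).trans ?_
      · rw [← pow_mul]
        exact pow_le_pow_left₀ hl0.le hlN _
      · rw [hV]
        gcongr)
  refine ⟨B, hB1, ?_, hB3⟩
  have hXpos : (0 : ℝ) < X := by linarith
  have h2 : ((Q : ℝ) ^ k * ((r : ℝ) ^ k * k)) * ((X : ℝ) ^ k * V) ≤ (X : ℝ) * (T * ((X : ℝ) ^ k / l ^ A)) := by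
    calc ((Q : ℝ) ^ k * ((r : ℝ) ^ k * k)) * ((X : ℝ) ^ k * V) ≤
          ((l ^ K) ^ k * ((l ^ K) ^ k * k)) * ((X : ℝ) ^ k * ((2 * l ^ K * X) ^ 2 / l ^ A')) := by
          rw [hV]; gcongr
      _ = (4 * (k : ℝ)) * ((X : ℝ) ^ (k + 2) * (l ^ (K * k + K * k + 2 * K) / l ^ A')) := by
          rw [← pow_mul, pow_add l (K * k + K * k) (2 * K), pow_add l (K * k) (K * k), pow_add (X : ℝ) k 2, show 2 * K = K * 2 by ring, pow_mul l K 2]
          ring
      _ ≤ l * ((X : ℝ) ^ (k + 2) * (l ^ (K * k + K * k + 2 * K) / l ^ A')) := by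
          gcongr
          linarith
      _ = (X : ℝ) * (T * ((X : ℝ) ^ k / l ^ A)) := by
          have e1 : l ^ A' = l ^ (K * k + K * k + 2 * K) * (l ^ A * l ^ A * l) := by
            rw [hA', ← pow_add, ← pow_succ, ← pow_add]; congr 1; ring
          rw [e1, hT, pow_add (X : ℝ) k 2]
          field_simp
  have h3 := hB2.trans h2
  have h4 : (X : ℝ) * T * B.card ≤ (X : ℝ) * T * ((X : ℝ) ^ k / l ^ A) := by
    calc (X : ℝ) * T * B.card = (X : ℝ) * (T * B.card) := by ring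
      _ ≤ _ := h3
      _ = _ := by ring
  exact le_of_mul_le_mul_left h4 (by positivity)

/-- the same for all initial segments -/
theorem tupPR (k A K : ℕ) : ∃ A' K' X₀ : ℕ, ∀ X : ℕ, X₀ ≤ X → ∀ Q : ℕ, 1 ≤ Q → (Q : ℝ) ≤ Real.log X ^ K →
    ∀ r : ℕ, (r : ℝ) ≤ Real.log X ^ K → ∀ (w : ℕ → ℂ) (G : Fin r → ℕ → ℂ) (I : Finset (Fin r)),
    (∀ n ∈ Icc 1 X, ‖w n‖ ≤ Real.log X ^ K) → (∀ j, ∀ x ∈ Icc 1 ((Q + 1) * X), ‖G j x‖ ≤ Real.log X ^ K) →
    (∀ j ∈ I, FullAt ((Q + 1) * X) (G j) A' K') →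
    ∃ B ⊆ Bx k X, (B.card : ℝ) ≤ (X : ℝ) ^ k / Real.log X ^ A ∧
      ∀ b ∈ Bx k X, b ∉ B → ∀ a ∈ Bx k Q, ∀ σ : Fin k → Fin r, (∃ i, σ i ∈ I) → ∀ x ≤ X, ∀ α : ℝ,
        ‖∑ n ∈ Icc 1 x, w n * (∏ i, G (σ i) (a i * n + b i)) * ee ((n : ℝ) * α)‖ ≤ (X : ℝ) / Real.log X ^ A := by
  classical
  -- the endpoints are rounded to the multiples of `X / J`
  set P : ℕ := A + K * (k + 1) + 1 with hP
  obtain ⟨A', K', X₀, h0⟩ := tupSR k (A + P + 1) K
  obtain ⟨N₁, h1⟩ := ev_log (P + 1) 8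
  refine ⟨A', K', max X₀ N₁, fun X hX Q hQ1 hQ r hr w G I hw hG hI => ?_⟩
  obtain ⟨hbig, hl⟩ := h1 X ((le_max_right _ _).trans hX)
  set l : ℝ := Real.log X with hldef
  have hl1 : 1 ≤ l := by linarith
  have hl0 : 0 < l := by linarith
  have hX1 : 1 ≤ X := by
    rcases Nat.eq_zero_or_pos X with h | h
    · exfalso
      rw [hldef, h] at hl
      simp only [CharP.cast_eq_zero, Real.log_zero] at hl
      linarith
    · exact h
  have hXpos : (0 : ℝ) < X := by exact_mod_cast hX1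
  set J : ℕ := ⌈l ^ P⌉₊ with hJ
  have hJ1 : l ^ P ≤ J := Nat.le_ceil _
  have hJ2 : (J : ℝ) ≤ 2 * l ^ P := by
    have h2 := (Nat.ceil_lt_add_one (by positivity : (0 : ℝ) ≤ l ^ P)).le
    have h3 : 1 ≤ l ^ P := one_le_pow₀ hl1
    linarith
  have hJpos : 1 ≤ J := by
    have : (1 : ℝ) ≤ J := (one_le_pow₀ hl1).trans hJ1
    exact_mod_cast this
  -- the grid
  set D : ℕ := X / J with hD
  have hJX : J ≤ X := by
    have : (J : ℝ) ≤ X := by
      calc (J : ℝ) ≤ 2 * l ^ P := hJ2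
        _ ≤ l * l ^ P := by gcongr; linarith
        _ = l ^ (P + 1) := by rw [pow_succ]; ring
        _ ≤ X := hbig
    exact_mod_cast this
  have hD1 : 1 ≤ D := by rw [hD]; exact (Nat.one_le_div_iff (by omega)).2 hJX
  have hDle : (D : ℝ) ≤ X / l ^ P := by
    have h4 : (D : ℝ) ≤ X / J := Nat.cast_div_le
    refine h4.trans ?_
    gcongr
  have hchoice : ∀ j : ℕ, ∃ B ⊆ Bx k X, (B.card : ℝ) ≤ (X : ℝ) ^ k / l ^ (A + P + 1) ∧
      ∀ b ∈ Bx k X, b ∉ B → ∀ a ∈ Bx k Q, ∀ σ : Fin k → Fin r, (∃ i, σ i ∈ I) → ∀ α : ℝ,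
        ‖Sm X (fun n => if n ≤ j * D then w n else 0) G a σ b α‖ ≤ (X : ℝ) / l ^ (A + P + 1) := by
    intro j
    refine h0 X ((le_max_left _ _).trans hX) Q hQ1 hQ r hr (fun n => if n ≤ j * D then w n else 0) G I ?_ hG hI
    intro n hn
    split_ifs
    · exact hw n hn
    · simp only [norm_zero]; positivity
  choose B hB1 hB2 hB3 using hchoice
  refine ⟨(range (2 * J + 1)).biUnion B, ?_, ?_, ?_⟩
  · exact biUnion_subset.2 fun j _ => hB1 j
  · have h5 : (((range (2 * J + 1)).biUnion B).card : ℝ) ≤ ∑ j ∈ range (2 * J + 1), ((B j).card : ℝ) := by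
      exact_mod_cast card_biUnion_le
    refine h5.trans ((sum_le_sum fun j _ => hB2 j).trans ?_)
    rw [sum_const, card_range, nsmul_eq_mul]
    push_cast
    rw [← mul_div_assoc, div_le_div_iff₀ (by positivity) (by positivity)]
    have e1 : l ^ (A + P + 1) = l ^ A * l ^ P * l := by rw [← pow_add, ← pow_succ]
    rw [e1]
    have h6 : 2 * (J : ℝ) + 1 ≤ l ^ P * l := by
      have h3 : 1 ≤ l ^ P := one_le_pow₀ hl1
      nlinarith
    calc (2 * (J : ℝ) + 1) * (X : ℝ) ^ k * l ^ A ≤ (l ^ P * l) * (X : ℝ) ^ k * l ^ A := by gcongr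
      _ = _ := by ring
  · intro b hb hbB a ha σ hσ x hx α
    set j := x / D with hj
    have hjD : j * D ≤ x := Nat.div_mul_le_self _ _
    have hjD2 : x < (j + 1) * D := by
      rw [hj, add_mul, one_mul]
      have := Nat.lt_div_mul_add (a := x) (show 0 < D by omega)
      linarith
    have hjJ : j ∈ range (2 * J + 1) := by
      rw [mem_range, hj, Nat.lt_succ_iff]
      calc x / D ≤ X / D := Nat.div_le_div_right hx
        _ ≤ 2 * J := by
          apply Nat.le_of_lt_succ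
          rw [Nat.div_lt_iff_lt_mul (by omega)]
          have h7 : X < (D + 1) * J := by
            rw [hD]
            have := Nat.lt_div_mul_add (a := X) (show 0 < J by omega)
            linarith
          nlinarith
    have h8 := hB3 j b hb (by
      intro h
      exact hbB (mem_biUnion.2 ⟨j, hjJ, h⟩)) a ha σ hσ α
    have hval : ∀ n ∈ Icc 1 X, ‖w n * (∏ i, G (σ i) (a i * n + b i)) * ee ((n : ℝ) * α)‖ ≤ l ^ (K * (k + 1)) := by
      intro n hn
      rw [norm_mul, norm_mul, norm_ee, mul_one, norm_prod]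
      rw [mem_Bx] at ha hb
      rw [mem_Icc] at hn
      calc ‖w n‖ * ∏ i, ‖G (σ i) (a i * n + b i)‖ ≤ l ^ K * ∏ i : Fin k, l ^ K := by
            refine mul_le_mul (hw n (mem_Icc.2 hn)) ?_ (prod_nonneg fun _ _ => norm_nonneg _) (by positivity)
            refine prod_le_prod (fun _ _ => norm_nonneg _) (fun i _ => hG _ _ ?_)
            rw [mem_Icc]
            have h9 : a i * n ≤ Q * X := Nat.mul_le_mul (ha i).2 hn.2
            have := hb i
            constructor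
            · omega
            · calc a i * n + b i ≤ Q * X + X := by omega
                _ = _ := by ring
        _ = _ := by rw [prod_const, card_univ, Fintype.card_fin, ← pow_mul, ← pow_add]; congr 1; ring
    have hjX : j * D ≤ X := hjD.trans hx
    have e2 : Sm X (fun n => if n ≤ j * D then w n else 0) G a σ b α =
        ∑ n ∈ Icc 1 (j * D), w n * (∏ i, G (σ i) (a i * n + b i)) * ee ((n : ℝ) * α) := by
      unfold Sm
      have hs : Icc 1 (j * D) = (Icc 1 X).filter (fun n => n ≤ j * D) := by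
        ext n
        simp only [mem_filter, mem_Icc]
        omega
      rw [hs, sum_filter]
      refine sum_congr rfl fun n _ => ?_
      by_cases h : n ≤ j * D
      · simp only [if_pos h]
      · simp only [if_neg h, zero_mul]
    have e3 : ∑ n ∈ Icc 1 x, w n * (∏ i, G (σ i) (a i * n + b i)) * ee ((n : ℝ) * α) =
        ∑ n ∈ Icc 1 (j * D), w n * (∏ i, G (σ i) (a i * n + b i)) * ee ((n : ℝ) * α) +
        ∑ n ∈ Ioc (j * D) x, w n * (∏ i, G (σ i) (a i * n + b i)) * ee ((n : ℝ) * α) := by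
      have c1 : Icc 1 x = Ioc 0 x := by ext; simp [Nat.one_le_iff_ne_zero, Nat.pos_iff_ne_zero]
      have c2 : Icc 1 (j * D) = Ioc 0 (j * D) := by ext; simp [Nat.one_le_iff_ne_zero, Nat.pos_iff_ne_zero]
      rw [c1, c2]
      exact (sum_Ioc_consecutive _ (Nat.zero_le _) hjD).symm
    rw [e3, ← e2]
    have h10 : ‖∑ n ∈ Ioc (j * D) x, w n * (∏ i, G (σ i) (a i * n + b i)) * ee ((n : ℝ) * α)‖ ≤ D * l ^ (K * (k + 1)) := by
      refine (norm_sum_le _ _).trans ?_
      calc ∑ n ∈ Ioc (j * D) x, ‖w n * (∏ i, G (σ i) (a i * n + b i)) * ee ((n : ℝ) * α)‖ ≤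
            ∑ n ∈ Ioc (j * D) x, l ^ (K * (k + 1)) := by
            refine sum_le_sum fun n hn => hval n ?_
            rw [mem_Ioc] at hn
            rw [mem_Icc]
            omega
        _ = ((x - j * D : ℕ) : ℝ) * l ^ (K * (k + 1)) := by rw [sum_const, Nat.card_Ioc, nsmul_eq_mul]
        _ ≤ _ := by
          have : x - j * D ≤ D := by
            have : (j + 1) * D = j * D + D := by ring
            omega
          gcongr
    refine (norm_add_le _ _).trans ((add_le_add h8 h10).trans ?_)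
    calc (X : ℝ) / l ^ (A + P + 1) + D * l ^ (K * (k + 1)) ≤ (X : ℝ) / l ^ (A + P + 1) + (X / l ^ P) * l ^ (K * (k + 1)) := by gcongr
      _ = ((X : ℝ) / l ^ A) * (1 / l ^ (P + 1) + 1 / l) := by
          have e1 : l ^ (A + P + 1) = l ^ A * l ^ (P + 1) := by rw [← pow_add]; rfl
          have e4 : l ^ P = l ^ A * l ^ (K * (k + 1)) * l := by rw [hP, pow_succ, pow_add]
          rw [e1]
          have e5 : (X : ℝ) / l ^ P * l ^ (K * (k + 1)) = (X : ℝ) / l ^ A * (1 / l) := by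
            rw [e4]; field_simp
          rw [e5]
          field_simp
      _ ≤ ((X : ℝ) / l ^ A) * 1 := by
          gcongr
          have h11 : 1 / l ^ (P + 1) ≤ 1 / l := by
            apply one_div_le_one_div_of_le hl0
            calc l = l ^ 1 := (pow_one l).symm
              _ ≤ _ := pow_le_pow_right₀ hl1 (by omega)
          have h12 : 1 / l ≤ 1 / 8 := by gcongr
          linarith
      _ = _ := mul_one _

end Pool.Agent.H76.MU
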