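import Pool.Agent.H76.MU.Sets

set_option autoImplicit false

/-!
The Liouville function: final form.
-/

namespace Pool.Agent.H76.MU

open Finset Pool.Agent.E8helper66.GB
open Pool.Agent.H807R2.Dav (ee norm_ee ee_add)
open Pool.Agent.E8helper77.GB (ev_log)
open Pool.Agent.H373R2.T7 (liR liR_norm)

/-- the Liouville function with values in the integers -/
def lam (n : ℕ) : ℤ := (-1) ^ ArithmeticFunction.cardFactors n

lemma lam_cast (n : ℕ) : ((lam n : ℤ) : ℂ) = liR n := by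
  unfold lam liR
  push_cast
  rfl

lemma lam_val (n : ℕ) : lam n = 1 ∨ lam n = -1 := by
  unfold lam
  exact neg_one_pow_eq_or ℤ _

lemma patt_prod {k : ℕ} (ε F : Fin k → ℤ) (hε : ∀ i, ε i = 1 ∨ ε i = -1) (hF : ∀ i, F i = 1 ∨ F i = -1) [Decidable (∀ i, F i = ε i)] :
    ∏ i, (1 + ε i * F i) = if ∀ i, F i = ε i then 2 ^ k else 0 := by
  split_ifs with h
  · rw [prod_congr rfl (fun i _ => show 1 + ε i * F i = 2 by rw [h i]; rcases hε i with h1 | h1 <;> rw [h1] <;> norm_num)]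
    rw [prod_const, card_univ, Fintype.card_fin]
  · push Not at h
    obtain ⟨i, hi⟩ := h
    refine prod_eq_zero (mem_univ i) ?_
    rcases hε i with h1 | h1 <;> rcases hF i with h2 | h2 <;> rw [h1, h2] at hi ⊢ <;>
      first | exact absurd rfl hi | norm_num

lemma eps_norm {k : ℕ} (ε : Fin k → ℤ) (hε : ∀ i, ε i = 1 ∨ ε i = -1) (S : Finset (Fin k)) : ‖∏ i ∈ S, ((ε i : ℤ) : ℂ)‖ = 1 := by
  rw [norm_prod]
  refine prod_eq_one fun i _ => ?_
  rcases hε i with h | h <;> rw [h] <;> simp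

/-- from exponential sums to sign patterns over `m - b - c` -/
theorem patt {k : ℕ} (X m : ℕ) (w : ℕ → ℂ) (C T : ℝ) (hC : 1 ≤ C) (hw : ∀ n ∈ Icc 1 X, ‖w n‖ ≤ C) (F : Fin k → ℕ → ℤ)
    (hF : ∀ i n, F i n = 1 ∨ F i n = -1)
    (h : ∀ S : Finset (Fin k), S.Nonempty → ∀ α : ℝ,
      ‖∑ n ∈ Icc 1 X, w n * (∏ i ∈ S, ((F i n : ℤ) : ℂ)) * ee ((n : ℝ) * α)‖ ≤ T)
    (ε : Fin k → ℤ) (hε : ∀ i, ε i = 1 ∨ ε i = -1)
    (S S' : Finset ℕ) (hS : S ⊆ Icc 1 X) (hS' : S' ⊆ Icc 1 X) (hT : 0 ≤ T) :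
    ‖(2 : ℂ) ^ k * ∑ t ∈ (Pr X m S S').filter (fun t => ∀ i, F i (m - t.1 - t.2) = ε i), w (m - t.1 - t.2) -
      ∑ t ∈ Pr X m S S', w (m - t.1 - t.2)‖ ≤ 3 * ((2 ^ k * T) * (X * C ^ 2)) := by
  classical
  set u : ℕ → ℂ := fun n => w n * ∏ i, (1 + ((ε i : ℤ) : ℂ) * ((F i n : ℤ) : ℂ)) with hu
  have hval : ∀ n, ∏ i, (1 + ((ε i : ℤ) : ℂ) * ((F i n : ℤ) : ℂ)) = if ∀ i, F i n = ε i then (2 : ℂ) ^ k else 0 := by
    intro n
    have h1 := patt_prod ε (fun i => F i n) hε (fun i => hF i n)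
    have h2 := congrArg (fun z : ℤ => (z : ℂ)) h1
    push_cast at h2
    exact h2
  have e1 : (2 : ℂ) ^ k * ∑ t ∈ (Pr X m S S').filter (fun t => ∀ i, F i (m - t.1 - t.2) = ε i), w (m - t.1 - t.2) =
      ∑ t ∈ Pr X m S S', u (m - t.1 - t.2) := by
    rw [sum_filter, mul_sum]
    refine sum_congr rfl fun t _ => ?_
    rw [hu]
    dsimp only
    rw [hval]
    split_ifs <;> ring
  rw [e1]
  refine sets X m u w C (2 ^ k * T) hC hw ?_ S S' hS hS'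
  intro α
  have e2 : ∑ n ∈ Icc 1 X, (u n - w n) * ee ((n : ℝ) * α) =
      ∑ U ∈ (univ : Finset (Fin k)).powerset.erase ∅, (∏ i ∈ U, ((ε i : ℤ) : ℂ)) *
        ∑ n ∈ Icc 1 X, w n * (∏ i ∈ U, ((F i n : ℤ) : ℂ)) * ee ((n : ℝ) * α) := by
    have e3 : ∀ n ∈ Icc 1 X, (u n - w n) * ee ((n : ℝ) * α) = ∑ U ∈ (univ : Finset (Fin k)).powerset.erase ∅,
        (∏ i ∈ U, ((ε i : ℤ) : ℂ)) * (w n * (∏ i ∈ U, ((F i n : ℤ) : ℂ)) * ee ((n : ℝ) * α)) := by
      intro n _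
      rw [hu]
      dsimp only
      rw [prod_one_add, ← add_sum_erase _ _ (mem_powerset.2 (empty_subset (univ : Finset (Fin k)))), prod_empty, mul_add, mul_one,
        add_sub_cancel_left, mul_sum, sum_mul]
      refine sum_congr rfl fun U _ => ?_
      rw [prod_mul_distrib]
      ring
    rw [sum_congr rfl e3, sum_comm]
    refine sum_congr rfl fun U _ => ?_
    rw [mul_sum]
  rw [e2]
  refine (norm_sum_le _ _).trans ?_
  have h4 : ∀ U ∈ (univ : Finset (Fin k)).powerset.erase ∅, ‖(∏ i ∈ U, ((ε i : ℤ) : ℂ)) *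
        ∑ n ∈ Icc 1 X, w n * (∏ i ∈ U, ((F i n : ℤ) : ℂ)) * ee ((n : ℝ) * α)‖ ≤ T := by
    intro U hU
    rw [mem_erase] at hU
    rw [norm_mul, eps_norm ε hε, one_mul]
    exact h U (nonempty_iff_ne_empty.2 hU.1) α
  refine (sum_le_sum h4).trans ?_
  rw [sum_const, nsmul_eq_mul]
  have h5 : (((univ : Finset (Fin k)).powerset.erase ∅).card : ℝ) ≤ 2 ^ k := by
    have : ((univ : Finset (Fin k)).powerset.erase ∅).card ≤ 2 ^ k := by
      refine (card_le_card (erase_subset _ _)).trans ?_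
      rw [card_powerset, card_univ, Fintype.card_fin]
    exact_mod_cast this
  gcongr

theorem li_fin (k A K : ℕ) : ∃ X₀ : ℕ, ∀ X : ℕ, X₀ ≤ X → ∀ w : ℕ → ℂ, (∀ n ∈ Icc 1 X, ‖w n‖ ≤ Real.log X ^ K) →
    ∃ B ⊆ Bx k X, (B.card : ℝ) ≤ (X : ℝ) ^ k / Real.log X ^ A ∧
      ∀ b ∈ Bx k X, b ∉ B → ∀ a : Fin k → ℕ, (∀ i, 1 ≤ a i ∧ (a i : ℝ) ≤ Real.log X ^ K) →
        (∀ S : Finset (Fin k), S.Nonempty → ∀ x ≤ X, ∀ α : ℝ,
          ‖∑ n ∈ Icc 1 x, w n * (∏ i ∈ S, ((lam (a i * n + b i) : ℤ) : ℂ)) * ee ((n : ℝ) * α)‖ ≤ X / Real.log X ^ A) ∧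
        (∀ (m : ℕ) (S T : Finset ℕ), S ⊆ Icc 1 X → T ⊆ Icc 1 X → ∀ ε : Fin k → ℤ, (∀ i, ε i = 1 ∨ ε i = -1) →
          ‖(2 : ℂ) ^ k * ∑ t ∈ (Pr X m S T).filter (fun t => ∀ i, lam (a i * (m - t.1 - t.2) + b i) = ε i), w (m - t.1 - t.2) -
            ∑ t ∈ Pr X m S T, w (m - t.1 - t.2)‖ ≤ (X : ℝ) ^ 2 / Real.log X ^ A) := by
  classical
  set A₁ : ℕ := A + 2 * K + 1 with hA₁
  obtain ⟨A', K', X₀, h0⟩ := tupP k 2 A₁ K
  obtain ⟨N₁, h1⟩ := full_li A' K'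
  obtain ⟨N₂, h2⟩ := ev_log 1 (3 * 2 ^ k + 1)
  refine ⟨max X₀ (max N₁ N₂), fun X hX w hw => ?_⟩
  obtain ⟨_, hl⟩ := h2 X (((le_max_right _ _).trans (le_max_right _ _)).trans hX)
  have hXN₁ : N₁ ≤ X := ((le_max_left _ _).trans (le_max_right _ _)).trans hX
  set l : ℝ := Real.log X with hldef
  have h2k : (1 : ℝ) ≤ 2 ^ k := one_le_pow₀ (by norm_num)
  have hl1 : 1 ≤ l := by linarith
  have hl0 : 0 < l := by linarith
  have hlK : 1 ≤ l ^ K := one_le_pow₀ hl1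
  have hXpos : (0 : ℝ) < X := by
    rcases Nat.eq_zero_or_pos X with h | h
    · exfalso
      rw [hldef, h] at hl
      simp only [CharP.cast_eq_zero, Real.log_zero] at hl
      linarith
    · exact_mod_cast h
  set Q : ℕ := ⌊l ^ K⌋₊ with hQ
  have hQ1 : 1 ≤ Q := Nat.le_floor (by simpa using hlK)
  have hQ2 : (Q : ℝ) ≤ l ^ K := Nat.floor_le (by positivity)
  set G : Fin 2 → ℕ → ℂ := ![fun _ => 1, liR] with hG
  obtain ⟨B, hB1, hB2, hB3⟩ := h0 X ((le_max_left _ _).trans hX) Q hQ1 hQ2 w G {1} hw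
    (by
      intro j x _
      fin_cases j
      · show ‖(1 : ℂ)‖ ≤ l ^ K
        rw [norm_one]; exact hlK
      · show ‖liR x‖ ≤ l ^ K
        exact (liR_norm x).trans hlK)
    (by
      intro j hj
      rw [mem_singleton] at hj
      subst hj
      show FullAt _ liR A' K'
      exact h1 _ (le_trans hXN₁ (by nlinarith)))
  refine ⟨B, hB1, hB2.trans ?_, fun b hb hbB a ha => ?_⟩
  · have : l ^ A ≤ l ^ A₁ := pow_le_pow_right₀ hl1 (by omega)
    gcongr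
  · have haQ : a ∈ Bx k Q := by
      rw [mem_Bx]
      intro i
      exact ⟨(ha i).1, Nat.le_floor (ha i).2⟩
    have hkey : ∀ S : Finset (Fin k), S.Nonempty → ∀ x ≤ X, ∀ α : ℝ,
        ‖∑ n ∈ Icc 1 x, w n * (∏ i ∈ S, ((lam (a i * n + b i) : ℤ) : ℂ)) * ee ((n : ℝ) * α)‖ ≤ X / l ^ A₁ := by
      intro S hS x hx α
      obtain ⟨i₀, hi₀⟩ := hS
      have h3 := hB3 b hb hbB a haQ (fun i => if i ∈ S then 1 else 0) ⟨i₀, by simp [hi₀]⟩ x hx α
      refine le_trans (le_of_eq ?_) h3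
      congr 1
      refine sum_congr rfl fun n _ => ?_
      congr 2
      have e1 : ∀ i ∈ (univ : Finset (Fin k)), G (if i ∈ S then 1 else 0) (a i * n + b i) =
          if i ∈ S then ((lam (a i * n + b i) : ℤ) : ℂ) else 1 := by
        intro i _
        split_ifs
        · rw [lam_cast]; rfl
        · rfl
      rw [prod_congr rfl e1, prod_ite_mem, univ_inter]
    refine ⟨?_, ?_⟩
    · intro S hS x hx α
      refine (hkey S hS x hx α).trans ?_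
      have : l ^ A ≤ l ^ A₁ := pow_le_pow_right₀ hl1 (by omega)
      gcongr
    · intro m S T hS hT ε hε
      have h4 := patt X m w (l ^ K) (X / l ^ A₁) hlK hw (fun i n => lam (a i * n + b i)) (fun i n => lam_val _)
        (fun U hU α => hkey U hU X le_rfl α) ε hε S T hS hT (by positivity)
      refine h4.trans ?_
      calc 3 * ((2 ^ k * (X / l ^ A₁)) * (X * (l ^ K) ^ 2)) = (3 * 2 ^ k) * ((X : ℝ) ^ 2 * (l ^ (2 * K) / l ^ A₁)) := by
            rw [← pow_mul, mul_comm K 2]; ring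
        _ ≤ l * ((X : ℝ) ^ 2 * (l ^ (2 * K) / l ^ A₁)) := by gcongr; linarith
        _ = (X : ℝ) ^ 2 / l ^ A := by
            rw [hA₁, show A + 2 * K + 1 = A + (2 * K) + 1 by ring, pow_succ, pow_add]
            field_simp
            ring

end Pool.Agent.H76.MU
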