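import Pool.Agent.H76.MU.FamR
import Pool.Agent.H76.MU.LiFin

set_option autoImplicit false

/-!
Words of values of the Liouville function.
-/

namespace Pool.Agent.H76.MU

open Finset Pool.Agent.E8helper66.GB
open Pool.Agent.H807R2.Dav (ee norm_ee ee_add)
open Pool.Agent.E8helper77.GB (ev_log)
open Pool.Agent.H373R2.T7 (liR liR_norm)

/-- the product of the values of the Liouville function at `n + u`, `u ∈ U` -/
def lamU (U : Finset ℕ) (n : ℕ) : ℤ := ∏ u ∈ U, lam (n + u)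

lemma lamU_val (U : Finset ℕ) (n : ℕ) : lamU U n = 1 ∨ lamU U n = -1 := by
  unfold lamU
  refine prod_induction _ (fun z : ℤ => z = 1 ∨ z = -1) ?_ (Or.inl rfl) (fun u _ => lam_val _)
  rintro x y (rfl | rfl) (rfl | rfl) <;> norm_num

lemma sgn_norm (z : ℤ) (hz : z = 1 ∨ z = -1) : ‖(z : ℂ)‖ = 1 := by
  rcases hz with rfl | rfl <;> simp

theorem fam_sets (k A K : ℕ) : ∃ X₀ : ℕ, ∀ X : ℕ, X₀ ≤ X → ∀ v : ℕ → ℂ, (∀ n ∈ Icc 1 X, ‖v n‖ ≤ Real.log X ^ K) →
    ∀ F : Finset (Finset ℕ), (F.card : ℝ) ≤ Real.log X ^ K →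
    ∃ B ⊆ Bx k X, (B.card : ℝ) ≤ (X : ℝ) ^ k / Real.log X ^ A ∧
      ∀ b ∈ Bx k X, b ∉ B → ∀ a : Fin k → ℕ, (∀ i, 1 ≤ a i ∧ (a i : ℝ) ≤ Real.log X ^ K) →
        ∀ U₀ ∈ F, ∀ U : Fin k → Finset ℕ, (∀ i, U i ∈ F) → (∃ i, U i = {0}) → ∀ x ≤ X, ∀ α : ℝ,
          ‖∑ n ∈ Icc 1 x, v n * (lamU U₀ n : ℂ) * (∏ i, (lamU (U i) (a i * n + b i) : ℂ)) * ee ((n : ℝ) * α)‖ ≤
            X / Real.log X ^ A := by
  classical
  obtain ⟨A', K', X₀, h0⟩ := tupPR k (A + K) K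
  obtain ⟨N₁, h1⟩ := full_li A' K'
  obtain ⟨N₂, h2⟩ := ev_log 1 1
  refine ⟨max X₀ (max N₁ N₂), fun X hX v hv F hF => ?_⟩
  obtain ⟨_, hl1⟩ := h2 X (((le_max_right _ _).trans (le_max_right _ _)).trans hX)
  have hXN₁ : N₁ ≤ X := ((le_max_left _ _).trans (le_max_right _ _)).trans hX
  set l : ℝ := Real.log X with hldef
  have hl0 : 0 < l := by linarith
  have hlK : 1 ≤ l ^ K := one_le_pow₀ hl1
  have hXpos : (0 : ℝ) < X := by
    rcases Nat.eq_zero_or_pos X with h | h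
    · exfalso
      rw [hldef, h] at hl1
      simp only [CharP.cast_eq_zero, Real.log_zero] at hl1
      linarith
    · exact_mod_cast h
  set Q : ℕ := ⌊l ^ K⌋₊ with hQ
  have hQ1 : 1 ≤ Q := Nat.le_floor (by simpa using hlK)
  have hQ2 : (Q : ℝ) ≤ l ^ K := Nat.floor_le (by positivity)
  set e := F.equivFin with he
  set G : Fin F.card → ℕ → ℂ := fun j n => ((lamU (e.symm j : Finset ℕ) n : ℤ) : ℂ) with hG
  have hGn : ∀ j x, ‖G j x‖ ≤ 1 := fun j x => (sgn_norm _ (lamU_val _ _)).le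
  have hfull : ∀ j ∈ univ.filter (fun j => (e.symm j : Finset ℕ) = {0}), FullAt ((Q + 1) * X) (G j) A' K' := by
    intro j hj
    rw [mem_filter] at hj
    have hGj : G j = liR := by
      funext n
      rw [hG]
      dsimp only
      rw [hj.2]
      unfold lamU
      rw [prod_singleton, add_zero, lam_cast]
    rw [hGj]
    exact h1 _ (le_trans hXN₁ (by nlinarith))
  have hch : ∀ U₀ : Finset ℕ, ∃ B ⊆ Bx k X, (B.card : ℝ) ≤ (X : ℝ) ^ k / l ^ (A + K) ∧
      ∀ b ∈ Bx k X, b ∉ B → ∀ a ∈ Bx k Q, ∀ σ : Fin k → Fin F.card,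
        (∃ i, σ i ∈ univ.filter (fun j => (e.symm j : Finset ℕ) = {0})) → ∀ x ≤ X, ∀ α : ℝ,
        ‖∑ n ∈ Icc 1 x, (v n * (lamU U₀ n : ℂ)) * (∏ i, G (σ i) (a i * n + b i)) * ee ((n : ℝ) * α)‖ ≤ (X : ℝ) / l ^ (A + K) := by
    intro U₀
    refine h0 X ((le_max_left _ _).trans hX) Q hQ1 hQ2 F.card hF _ G _ ?_ (fun j x _ => (hGn j x).trans hlK) hfull
    intro n hn
    rw [norm_mul, sgn_norm _ (lamU_val _ _), mul_one]
    exact hv n hn
  choose B hB1 hB2 hB3 using hch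
  refine ⟨F.biUnion B, biUnion_subset.2 fun U _ => hB1 U, ?_, ?_⟩
  · have h5 : ((F.biUnion B).card : ℝ) ≤ ∑ U ∈ F, ((B U).card : ℝ) := by
      exact_mod_cast card_biUnion_le
    refine h5.trans ((sum_le_sum fun U _ => hB2 U).trans ?_)
    rw [sum_const, nsmul_eq_mul]
    calc (F.card : ℝ) * ((X : ℝ) ^ k / l ^ (A + K)) ≤ l ^ K * ((X : ℝ) ^ k / l ^ (A + K)) := by gcongr
      _ = _ := by
        rw [pow_add]
        field_simp
  · intro b hb hbB a ha U₀ hU₀ U hU hex x hx α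
    have haQ : a ∈ Bx k Q := by
      rw [mem_Bx]
      intro i
      exact ⟨(ha i).1, Nat.le_floor (ha i).2⟩
    obtain ⟨i₀, hi₀⟩ := hex
    have h3 := hB3 U₀ b hb (fun h => hbB (mem_biUnion.2 ⟨U₀, hU₀, h⟩)) a haQ (fun i => e ⟨U i, hU i⟩)
      ⟨i₀, by rw [mem_filter]; exact ⟨mem_univ _, by simpa using hi₀⟩⟩ x hx α
    have h4 : (X : ℝ) / l ^ (A + K) ≤ X / l ^ A := by
      have : l ^ A ≤ l ^ (A + K) := pow_le_pow_right₀ hl1 (by omega)
      gcongr
    refine le_trans (le_of_eq ?_) (h3.trans h4)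
    congr 1
    refine sum_congr rfl fun n _ => ?_
    congr 2
    refine prod_congr rfl fun i _ => ?_
    rw [hG]
    simp

/-- the functions of finitely many signs -/
theorem walsh {J : Type} [Fintype J] [DecidableEq J] (Ψ : (J → ℤ) → ℂ) (hΨ : ∀ y, ‖Ψ y‖ ≤ 1) (x : ℕ) (z : ℕ → J → ℤ)
    (hz : ∀ n j, z n j = 1 ∨ z n j = -1) (g : ℕ → ℂ) (T : ℝ)
    (h : ∀ V : Finset J, ‖∑ n ∈ Icc 1 x, ((∏ j ∈ V, z n j : ℤ) : ℂ) * g n‖ ≤ T) :
    ‖∑ n ∈ Icc 1 x, Ψ (z n) * g n‖ ≤ 2 ^ Fintype.card J * T := by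
  classical
  set Y : Finset (J → ℤ) := Fintype.piFinset (fun _ => ({1, -1} : Finset ℤ)) with hY
  have hYc : Y.card = 2 ^ Fintype.card J := by
    rw [hY, Fintype.card_piFinset]
    simp
  have hind : ∀ y ∈ Y, ∀ n, ((2 : ℂ) ^ Fintype.card J) * (if z n = y then 1 else 0) =
      ∑ V : Finset J, ((∏ j ∈ V, y j : ℤ) : ℂ) * ((∏ j ∈ V, z n j : ℤ) : ℂ) := by
    intro y hy n
    have hy' : ∀ j, y j = 1 ∨ y j = -1 := by
      intro j
      have := (Fintype.mem_piFinset.1 hy) j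
      simpa using this
    have e1 : ∑ V : Finset J, ((∏ j ∈ V, y j : ℤ) : ℂ) * ((∏ j ∈ V, z n j : ℤ) : ℂ) = ∏ j : J, (1 + (y j : ℂ) * (z n j : ℂ)) := by
      rw [prod_one_add, powerset_univ]
      refine sum_congr rfl fun V _ => ?_
      push_cast
      rw [prod_mul_distrib]
    rw [e1]
    by_cases hh : z n = y
    · rw [if_pos hh, mul_one]
      rw [prod_congr rfl (fun j _ => show (1 : ℂ) + (y j : ℂ) * (z n j : ℂ) = 2 by
        rw [hh]; rcases hy' j with h1 | h1 <;> rw [h1] <;> norm_num)]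
      rw [prod_const, card_univ]
    · rw [if_neg hh, mul_zero]
      obtain ⟨j, hj⟩ := Function.ne_iff.1 hh
      symm
      refine prod_eq_zero (mem_univ j) ?_
      rcases hy' j with h1 | h1 <;> rcases hz n j with h2 | h2 <;> rw [h1, h2] at hj ⊢ <;>
        first | exact absurd rfl hj | norm_num
  have e2 : ∑ n ∈ Icc 1 x, Ψ (z n) * g n = ∑ y ∈ Y, Ψ y * ∑ n ∈ Icc 1 x, (if z n = y then (1 : ℂ) else 0) * g n := by
    have : ∀ n ∈ Icc 1 x, Ψ (z n) * g n = ∑ y ∈ Y, Ψ y * ((if z n = y then (1 : ℂ) else 0) * g n) := by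
      intro n _
      have hzY : z n ∈ Y := by
        rw [hY, Fintype.mem_piFinset]
        intro j
        simpa using hz n j
      rw [sum_eq_single_of_mem (z n) hzY (fun y _ hy => by rw [if_neg (fun h => hy h.symm)]; ring)]
      rw [if_pos rfl, one_mul]
    rw [sum_congr rfl this, sum_comm]
    refine sum_congr rfl fun y _ => ?_
    rw [mul_sum]
  have hT : ∀ y ∈ Y, ‖∑ n ∈ Icc 1 x, (if z n = y then (1 : ℂ) else 0) * g n‖ ≤ T := by
    intro y hy
    have hy' : ∀ j, y j = 1 ∨ y j = -1 := by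
      intro j
      have := (Fintype.mem_piFinset.1 hy) j
      simpa using this
    have e3 : ((2 : ℂ) ^ Fintype.card J) * ∑ n ∈ Icc 1 x, (if z n = y then (1 : ℂ) else 0) * g n =
        ∑ V : Finset J, ((∏ j ∈ V, y j : ℤ) : ℂ) * ∑ n ∈ Icc 1 x, ((∏ j ∈ V, z n j : ℤ) : ℂ) * g n := by
      rw [mul_sum]
      have : ∀ n ∈ Icc 1 x, (2 : ℂ) ^ Fintype.card J * ((if z n = y then (1 : ℂ) else 0) * g n) =
          ∑ V : Finset J, ((∏ j ∈ V, y j : ℤ) : ℂ) * (((∏ j ∈ V, z n j : ℤ) : ℂ) * g n) := by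
        intro n _
        rw [← mul_assoc, hind y hy n, sum_mul]
        refine sum_congr rfl fun V _ => ?_
        ring
      rw [sum_congr rfl this, sum_comm]
      refine sum_congr rfl fun V _ => ?_
      rw [mul_sum]
    have h5 : ‖((2 : ℂ) ^ Fintype.card J) * ∑ n ∈ Icc 1 x, (if z n = y then (1 : ℂ) else 0) * g n‖ ≤ 2 ^ Fintype.card J * T := by
      rw [e3]
      refine (norm_sum_le _ _).trans ?_
      calc ∑ V : Finset J, ‖((∏ j ∈ V, y j : ℤ) : ℂ) * ∑ n ∈ Icc 1 x, ((∏ j ∈ V, z n j : ℤ) : ℂ) * g n‖ ≤ ∑ V : Finset J, T := by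
            refine sum_le_sum fun V _ => ?_
            rw [norm_mul]
            have h6 : ‖((∏ j ∈ V, y j : ℤ) : ℂ)‖ = 1 := by
              refine sgn_norm _ ?_
              refine prod_induction _ (fun z : ℤ => z = 1 ∨ z = -1) ?_ (Or.inl rfl) (fun u _ => hy' _)
              rintro x y (rfl | rfl) (rfl | rfl) <;> norm_num
            rw [h6, one_mul]
            exact h V
        _ = 2 ^ Fintype.card J * T := by
            rw [sum_const, card_univ, Fintype.card_finset, nsmul_eq_mul]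
            push_cast
            ring
    rw [norm_mul, norm_pow, Complex.norm_ofNat] at h5
    exact le_of_mul_le_mul_left h5 (by positivity)
  rw [e2]
  refine (norm_sum_le _ _).trans ?_
  calc ∑ y ∈ Y, ‖Ψ y * ∑ n ∈ Icc 1 x, (if z n = y then (1 : ℂ) else 0) * g n‖ ≤ ∑ y ∈ Y, T := by
        refine sum_le_sum fun y hy => ?_
        rw [norm_mul]
        calc _ ≤ 1 * T := mul_le_mul (hΨ y) (hT y hy) (norm_nonneg _) zero_le_one
          _ = T := one_mul _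
    _ = _ := by
        rw [sum_const, hYc, nsmul_eq_mul]
        push_cast
        ring

end Pool.Agent.H76.MU
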