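import Pool.Agent.H76.MU.Words

set_option autoImplicit false

/-!
Words of values of the Liouville function: final form.
-/

namespace Pool.Agent.H76.MU

open Finset Pool.Agent.E8helper66.GB
open Pool.Agent.H807R2.Dav (ee norm_ee ee_add)
open Pool.Agent.E8helper77.GB (ev_log)
open Pool.Agent.H373R2.T7 (liR liR_norm)

/-- the product of `l` consecutive values -/
def blk (l n : ℕ) : ℤ := ∏ j ∈ range l, lam (n + j)

lemma row_prod {R L : ℕ} (V : Finset (Option (Fin R) × Fin L)) (o : Option (Fin R)) (c : ℕ) :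
    ∏ j : Fin L, (if (o, j) ∈ V then lam (c + j) else 1) =
      lamU ((univ.filter (fun j => (o, j) ∈ V)).map Fin.valEmbedding) c := by
  unfold lamU
  rw [prod_map, prod_filter]
  rfl

lemma row_mem {R L Lb : ℕ} (hL : L ≤ Lb) (V : Finset (Option (Fin R) × Fin L)) (o : Option (Fin R)) :
    (univ.filter (fun j => (o, j) ∈ V)).map Fin.valEmbedding ∈ (range Lb).powerset := by
  rw [mem_powerset]
  intro x hx
  rw [mem_map] at hx
  obtain ⟨j, _, rfl⟩ := hx
  rw [mem_range]
  exact lt_of_lt_of_le j.2 hL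

theorem words (k A K : ℕ) : ∃ X₀ : ℕ, ∀ X : ℕ, X₀ ≤ X → ∀ v : ℕ → ℂ, (∀ n ∈ Icc 1 X, ‖v n‖ ≤ Real.log X ^ K) →
    ∃ B ⊆ Bx (k + 1) X, (B.card : ℝ) ≤ (X : ℝ) ^ (k + 1) / Real.log X ^ A ∧
      ∀ b ∈ Bx (k + 1) X, b ∉ B → ∀ a : Fin (k + 1) → ℕ, (∀ i, 1 ≤ a i ∧ (a i : ℝ) ≤ Real.log X ^ K) →
        (∀ (m : ℕ) (r : Fin (k + 1) → ℕ), (m : ℝ) ≤ Real.log X ^ K → (∀ i, (r i : ℝ) ≤ Real.log X ^ K) →
          (∃ i, r i = 1) → ∀ x ≤ X, ∀ α : ℝ,
          ‖∑ n ∈ Icc 1 x, v n * (blk m n : ℂ) * (∏ i, (blk (r i) (a i * n + b i) : ℂ)) * ee ((n : ℝ) * α)‖ ≤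
            X / Real.log X ^ A) ∧
        (∀ L : ℕ, (2 : ℝ) ^ L ≤ Real.log X ^ K → ∀ Φ : (Fin L → ℤ) → (Fin k → Fin L → ℤ) → ℂ, (∀ y z, ‖Φ y z‖ ≤ 1) →
          (∀ x ≤ X, ∀ α : ℝ, ‖∑ n ∈ Icc 1 x, v n * Φ (fun j => lam (n + j)) (fun i j => lam (a i.succ * n + b i.succ + j)) *
            (lam (a 0 * n + b 0) : ℂ) * ee ((n : ℝ) * α)‖ ≤ X / Real.log X ^ A) ∧
          (∀ (m : ℕ) (S T : Finset ℕ), S ⊆ Icc 1 X → T ⊆ Icc 1 X → ∀ ε : ℤ, (ε = 1 ∨ ε = -1) →
            ‖2 * ∑ t ∈ (Pr X m S T).filter (fun t => lam (a 0 * (m - t.1 - t.2) + b 0) = ε),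
                v (m - t.1 - t.2) * Φ (fun j => lam ((m - t.1 - t.2) + j))
                  (fun i j => lam (a i.succ * (m - t.1 - t.2) + b i.succ + j)) -
              ∑ t ∈ Pr X m S T, v (m - t.1 - t.2) * Φ (fun j => lam ((m - t.1 - t.2) + j))
                  (fun i j => lam (a i.succ * (m - t.1 - t.2) + b i.succ + j))‖ ≤ (X : ℝ) ^ 2 / Real.log X ^ A)) := by
  classical
  set A₁ : ℕ := A + K * (k + 1) + 2 * K + 1 with hA₁
  obtain ⟨X₀, h0⟩ := fam_sets (k + 1) A₁ (K + 1)
  obtain ⟨N₂, h2⟩ := ev_log 1 4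
  refine ⟨max X₀ N₂, fun X hX v hv => ?_⟩
  obtain ⟨_, hl⟩ := h2 X ((le_max_right _ _).trans hX)
  set l : ℝ := Real.log X with hldef
  have hl1 : 1 ≤ l := by linarith
  have hl0 : 0 < l := by linarith
  have hlK : 1 ≤ l ^ K := one_le_pow₀ hl1
  have hlKK : l ^ K ≤ l ^ (K + 1) := pow_le_pow_right₀ hl1 (by omega)
  have hXpos : (0 : ℝ) < X := by
    rcases Nat.eq_zero_or_pos X with h | h
    · exfalso
      rw [hldef, h] at hl
      simp only [CharP.cast_eq_zero, Real.log_zero] at hl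
      linarith
    · exact_mod_cast h
  set M : ℕ := ⌊l ^ K⌋₊ with hM
  have hM1 : 1 ≤ M := Nat.le_floor (by simpa using hlK)
  have hM2 : (M : ℝ) ≤ l ^ K := Nat.floor_le (by positivity)
  set Lb : ℕ := Nat.log 2 M with hLb
  have hLb2 : 2 ^ Lb ≤ M := Nat.pow_log_le_self 2 (by omega)
  set F : Finset (Finset ℕ) := (range (M + 1)).image range ∪ (range Lb).powerset with hF
  have hFc : (F.card : ℝ) ≤ l ^ (K + 1) := by
    have h3 : F.card ≤ (M + 1) + 2 ^ Lb := by
      refine (card_union_le _ _).trans (Nat.add_le_add ?_ ?_)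
      · refine card_image_le.trans ?_
        rw [card_range]
      · rw [card_powerset, card_range]
    have h4 : F.card ≤ 3 * M := by omega
    have h5 : (F.card : ℝ) ≤ 3 * M := by exact_mod_cast h4
    calc (F.card : ℝ) ≤ 3 * l ^ K := by linarith
      _ ≤ l * l ^ K := by gcongr; linarith
      _ = l ^ (K + 1) := by rw [pow_succ]; ring
  have hFr : ∀ r : ℕ, (r : ℝ) ≤ l ^ K → range r ∈ F := by
    intro r hr
    rw [hF, mem_union]
    left
    rw [mem_image]
    exact ⟨r, mem_range.2 (Nat.lt_succ_of_le (Nat.le_floor hr)), rfl⟩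
  have hF1 : ({0} : Finset ℕ) ∈ F := by
    have := hFr 1 (by simpa using hlK)
    simpa using this
  obtain ⟨B, hB1, hB2, hB3⟩ := h0 X ((le_max_left _ _).trans hX) v (fun n hn => (hv n hn).trans hlKK) F hFc
  have hmono : l ^ A ≤ l ^ A₁ := pow_le_pow_right₀ hl1 (by omega)
  refine ⟨B, hB1, hB2.trans (by gcongr), fun b hb hbB a ha => ?_⟩
  have ha' : ∀ i, 1 ≤ a i ∧ (a i : ℝ) ≤ l ^ (K + 1) := fun i => ⟨(ha i).1, (ha i).2.trans hlKK⟩
  have hkey := hB3 b hb hbB a ha'
  refine ⟨?_, ?_⟩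
  · intro m r hm hr ⟨i₀, hi₀⟩ x hx α
    have h3 := hkey (range m) (hFr m hm) (fun i => range (r i)) (fun i => hFr _ (hr i)) ⟨i₀, by simp [hi₀]⟩ x hx α
    refine le_trans (le_of_eq ?_) (h3.trans (by gcongr))
    rfl
  · intro L hL Φ hΦ
    -- the estimate for the functions of the words
    have hLLb : L ≤ Lb := by
      rw [hLb]
      refine Nat.le_log_of_pow_le (by norm_num) ?_
      refine Nat.le_floor ?_
      push_cast
      exact hL
    set T₂ : ℝ := X / l ^ (A + 2 * K + 1) with hT₂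
    have hwords : ∀ x ≤ X, ∀ α : ℝ, ‖∑ n ∈ Icc 1 x, v n * Φ (fun j => lam (n + j))
        (fun i j => lam (a i.succ * n + b i.succ + j)) * (lam (a 0 * n + b 0) : ℂ) * ee ((n : ℝ) * α)‖ ≤ T₂ := by
      intro x hx α
      set z : ℕ → (Option (Fin k) × Fin L) → ℤ := fun n p =>
        lam ((match p.1 with | none => n | some i => a i.succ * n + b i.succ) + p.2) with hz
      have h4 := walsh (J := Option (Fin k) × Fin L)
        (fun y => Φ (fun j => y (none, j)) (fun i j => y (some i, j))) (fun y => hΦ _ _) x z (fun n p => lam_val _)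
        (fun n => v n * (lam (a 0 * n + b 0) : ℂ) * ee ((n : ℝ) * α)) (X / l ^ A₁)
        (by
          intro V
          have h5 := hkey _ (mem_union_right _ (row_mem hLLb V none))
            (Fin.cons {0} (fun i => (univ.filter (fun j => (some i, j) ∈ V)).map Fin.valEmbedding))
            (by
              intro i
              refine Fin.cases ?_ (fun i => ?_) i
              · simpa using hF1
              · simp only [Fin.cons_succ]
                exact mem_union_right _ (row_mem hLLb V (some i)))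
            ⟨0, by simp⟩ x hx α
          refine le_trans (le_of_eq ?_) h5
          congr 1
          refine sum_congr rfl fun n _ => ?_
          rw [Fin.prod_univ_succ]
          simp only [Fin.cons_zero, Fin.cons_succ]
          have e1 : ∏ p ∈ V, z n p = lamU ((univ.filter (fun j => (none, j) ∈ V)).map Fin.valEmbedding) n *
              ∏ i : Fin k, lamU ((univ.filter (fun j => (some i, j) ∈ V)).map Fin.valEmbedding) (a i.succ * n + b i.succ) := by
            rw [← row_prod V none n]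
            rw [prod_congr rfl (fun (i : Fin k) _ => (row_prod V (some i) (a i.succ * n + b i.succ)).symm)]
            have e2 : ∏ p ∈ V, z n p = ∏ p : Option (Fin k) × Fin L, if p ∈ V then z n p else 1 := by
              rw [prod_ite_mem, univ_inter]
            rw [e2, Fintype.prod_prod_type, Fintype.prod_option]
          rw [e1]
          have e3 : lamU {0} (a 0 * n + b 0) = lam (a 0 * n + b 0) := by
            unfold lamU
            rw [prod_singleton, add_zero]
          rw [e3]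
          push_cast
          ring)
      have e4 : ∑ n ∈ Icc 1 x, v n * Φ (fun j => lam (n + j)) (fun i j => lam (a i.succ * n + b i.succ + j)) *
          (lam (a 0 * n + b 0) : ℂ) * ee ((n : ℝ) * α) =
          ∑ n ∈ Icc 1 x, (fun y : (Option (Fin k) × Fin L) → ℤ => Φ (fun j => y (none, j)) (fun i j => y (some i, j))) (z n) *
            (v n * (lam (a 0 * n + b 0) : ℂ) * ee ((n : ℝ) * α)) := by
        refine sum_congr rfl fun n _ => ?_
        rw [hz]
        dsimp only
        ring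
      rw [e4]
      refine h4.trans ?_
      have hJ : Fintype.card (Option (Fin k) × Fin L) = L * (k + 1) := by
        rw [Fintype.card_prod, Fintype.card_option, Fintype.card_fin, Fintype.card_fin]
        ring
      rw [hJ, pow_mul]
      calc ((2 : ℝ) ^ L) ^ (k + 1) * (X / l ^ A₁) ≤ (l ^ K) ^ (k + 1) * (X / l ^ A₁) := by gcongr
        _ = T₂ := by
          rw [hT₂, hA₁, ← pow_mul, show A + K * (k + 1) + 2 * K + 1 = K * (k + 1) + (A + 2 * K + 1) by ring, pow_add]
          field_simp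
    have hT₂A : T₂ ≤ X / l ^ A := by
      rw [hT₂]
      have : l ^ A ≤ l ^ (A + 2 * K + 1) := pow_le_pow_right₀ hl1 (by omega)
      gcongr
    refine ⟨fun x hx α => (hwords x hx α).trans hT₂A, ?_⟩
    intro m S T hS hT ε hε
    set w : ℕ → ℂ := fun n => v n * Φ (fun j => lam (n + j)) (fun i j => lam (a i.succ * n + b i.succ + j)) with hw
    set u : ℕ → ℂ := fun n => w n * (1 + (ε : ℂ) * (lam (a 0 * n + b 0) : ℂ)) with hu
    have e5 : 2 * ∑ t ∈ (Pr X m S T).filter (fun t => lam (a 0 * (m - t.1 - t.2) + b 0) = ε), w (m - t.1 - t.2) =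
        ∑ t ∈ Pr X m S T, u (m - t.1 - t.2) := by
      rw [sum_filter, mul_sum]
      refine sum_congr rfl fun t _ => ?_
      rw [hu]
      dsimp only
      rcases lam_val (a 0 * (m - t.1 - t.2) + b 0) with h1 | h1 <;> rcases hε with h2 | h2 <;> rw [h1, h2] <;> norm_num <;> ring
    have hwn : ∀ n ∈ Icc 1 X, ‖w n‖ ≤ l ^ K := by
      intro n hn
      rw [hw]
      dsimp only
      rw [norm_mul]
      calc _ ≤ l ^ K * 1 := mul_le_mul (hv n hn) (hΦ _ _) (norm_nonneg _) (by positivity)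
        _ = _ := mul_one _
    have hsup : ∀ α : ℝ, ‖∑ n ∈ Icc 1 X, (u n - w n) * ee ((n : ℝ) * α)‖ ≤ T₂ := by
      intro α
      have e6 : ∑ n ∈ Icc 1 X, (u n - w n) * ee ((n : ℝ) * α) =
          (ε : ℂ) * ∑ n ∈ Icc 1 X, w n * (lam (a 0 * n + b 0) : ℂ) * ee ((n : ℝ) * α) := by
        rw [mul_sum]
        refine sum_congr rfl fun n _ => ?_
        rw [hu]
        dsimp only
        ring
      rw [e6, norm_mul, sgn_norm ε hε, one_mul]
      exact hwords X le_rfl α
    have h7 := sets X m u w (l ^ K) T₂ hlK hwn hsup S T hS hT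
    have h8 : 3 * (T₂ * (X * (l ^ K) ^ 2)) ≤ (X : ℝ) ^ 2 / l ^ A := by
      calc 3 * (T₂ * (X * (l ^ K) ^ 2)) = 3 * ((X : ℝ) ^ 2 * (l ^ (2 * K) / l ^ (A + 2 * K + 1))) := by
            rw [hT₂, ← pow_mul, mul_comm K 2]; ring
        _ ≤ l * ((X : ℝ) ^ 2 * (l ^ (2 * K) / l ^ (A + 2 * K + 1))) := by gcongr; linarith
        _ = (X : ℝ) ^ 2 / l ^ A := by
            rw [pow_succ, pow_add]
            field_simp
            ring
    refine le_trans (le_of_eq ?_) (h7.trans h8)
    rw [← e5]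

end Pool.Agent.H76.MU
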